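import Pool.Agent.H261R3.LH.Main
import Pool.Agent.H261R3.LD.Defs

set_option autoImplicit false

open scoped NNReal ENNReal
open UpperHalfPlane

namespace Pool.Agent.H261R3.LH

open Pool.Agent.H261R3.LD (LipCurve distLip diamLip)

/-- The closed ball of radius `R` in the hyperbolic plane (upper half plane model), centred
at `i`. -/
abbrev HBall (R : ℝ) : Type := Metric.closedBall (UpperHalfPlane.I) R

theorem evar_le {S : Type} [MetricSpace S] {K : ℝ≥0} {φ : ℝ → S}
    (h : ∀ x y, dist (φ x) (φ y) ≤ K * |x - y|) :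
    eVariationOn (fun t : unitInterval => φ t) Set.univ ≤ K := by
  have h1 : LipschitzWith K φ := LipschitzWith.of_dist_le_mul fun x y => by
    rw [Real.dist_eq]; exact h x y
  have h2 := (h1.lipschitzOnWith (s := Set.univ)).comp_eVariationOn_le
    (g := fun t : unitInterval => (t : ℝ)) (s := Set.univ) (fun _ _ => Set.mem_univ _)
  refine h2.trans ?_
  have h3 : eVariationOn (fun t : unitInterval => (t : ℝ)) Set.univ ≤ 1 := by
    have hm : MonotoneOn (fun t : unitInterval => (t : ℝ)) Set.univ := fun a _ b _ hab => hab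
    have h4 := (hm.eVariationOn_eq (a := 0) (b := 1) (Set.mem_univ _) (Set.mem_univ _)).le
    have e : (Set.univ : Set unitInterval) ∩ Set.Icc 0 1 = Set.univ := by
      ext x
      exact ⟨fun _ => Set.mem_univ _, fun _ => ⟨Set.mem_univ _, x.2.1, x.2.2⟩⟩
    rw [e] at h4
    simpa using h4
  calc (K : ℝ≥0∞) * _ ≤ K * 1 := by gcongr
    _ = K := mul_one _

theorem glueR {S : Type} [MetricSpace S] {C : ℝ} {f g : ℝ → S} (a : ℝ)
    (hf : Lip1 C f) (hg : Lip1 C g) (h : f a = g a) :
    Lip1 C (fun x => if x ≤ a then f x else g x) := by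
  intro x y
  dsimp only
  split_ifs with h1 h2 h2
  · exact hf x y
  · calc dist (f x) (g y) ≤ dist (f x) (f a) + dist (g a) (g y) := by
          rw [← h]; exact dist_triangle _ _ _
      _ ≤ C * |x - a| + C * |a - y| := add_le_add (hf _ _) (hg _ _)
      _ = C * |x - y| := by
          rw [abs_of_nonpos (by linarith), abs_of_nonpos (by linarith : a - y ≤ 0),
            abs_of_nonpos (by linarith : x - y ≤ 0)]
          ring
  · calc dist (g x) (f y) ≤ dist (g x) (g a) + dist (f a) (f y) := by
          rw [h]; exact dist_triangle _ _ _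
      _ ≤ C * |x - a| + C * |a - y| := add_le_add (hg _ _) (hf _ _)
      _ = C * |x - y| := by
          rw [abs_of_nonneg (by linarith), abs_of_nonneg (by linarith : 0 ≤ a - y),
            abs_of_nonneg (by linarith : 0 ≤ x - y)]
          ring
  · exact hg x y

theorem final (hM : Main) (hR : TaskRetr) (S : Type) [MetricSpace S] [CompactSpace S]
    [SimplyConnectedSpace S] (hS : IsLNR S) :
    ∃ c₀ D : ℝ≥0, 1 ≤ c₀ ∧ ∀ c : ℝ≥0, c₀ ≤ c → ∀ R : ℝ, 0 < R →
      diamLip (HBall R) S c 1 ≤ D := by
  obtain ⟨p⟩ : Nonempty S := inferInstance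
  obtain ⟨C, hC, hH⟩ := hM S hS p
  refine ⟨max 1 ⟨C, hC⟩, 2 * ⟨C, hC⟩, le_max_left _ _, fun c hc R hR0 => ?_⟩
  have hcC : C ≤ c := by
    have h1 : (⟨C, hC⟩ : ℝ≥0) ≤ c := (le_max_right _ _).trans hc
    exact_mod_cast h1
  obtain ⟨ρ, h1, h2, h3⟩ := hR R hR0.le
  have key : ∀ f : HBall R → S, LipschitzWith 1 f → ∃ H : ℝ → HBall R → S,
      (∀ t z w, dist (H t z) (H t w) ≤ C * dist z w) ∧ (∀ z, Lip1 C (fun t => H t z)) ∧
      (∀ z, H 0 z = f z) ∧ ∀ z, H 1 z = p := by
    intro f hf
    obtain ⟨H, k1, k2, k3, k4⟩ := hH (fun z => f ⟨ρ z, h1 z⟩) (fun z w => by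
      refine (hf.dist_le_mul _ _).trans ?_
      rw [NNReal.coe_one, one_mul]
      exact h3 z w)
    refine ⟨fun t z => H t z.1, fun t z w => k1 t z.1 w.1, fun z => k2 z.1, fun z => ?_,
      fun z => k4 z.1⟩
    change H 0 z.1 = f z
    rw [k3 z.1]
    congr 1
    exact Subtype.ext (h2 z.1 z.2)
  unfold diamLip
  refine iSup_le fun f => iSup_le fun hf => iSup_le fun g => iSup_le fun hg => ?_
  obtain ⟨H, a1, a2, a3, a4⟩ := key f hf
  obtain ⟨H', b1, b2, b3, b4⟩ := key g hg
  let Φ : ℝ → HBall R → S := fun t z => if t ≤ 1 / 2 then H (2 * t) z else H' (2 - 2 * t) z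
  have hΦ : ∀ z, Lip1 (2 * C) (fun t => Φ t z) := by
    intro z
    refine glueR (1 / 2) (f := fun t => H (2 * t) z)
      (g := fun t => H' (2 - 2 * t) z) ?_ ?_ ?_
    · intro x y
      refine (a2 z (2 * x) (2 * y)).trans (le_of_eq ?_)
      rw [← mul_sub, abs_mul, abs_two]; ring
    · intro x y
      refine (b2 z (2 - 2 * x) (2 - 2 * y)).trans (le_of_eq ?_)
      have : (2 : ℝ) - 2 * x - (2 - 2 * y) = -(2 * (x - y)) := by ring
      rw [this, abs_neg, abs_mul, abs_two]; ring
    · norm_num
      rw [a4, b4]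
  let γ : LipCurve (HBall R) S c f g :=
    { F := fun t z => Φ t z
      lip := by
        intro t
        apply LipschitzWith.of_dist_le_mul
        intro z w
        have h5 : C * dist z w ≤ c * dist z w := mul_le_mul_of_nonneg_right hcC dist_nonneg
        refine le_trans ?_ h5
        simp only [Φ]
        split_ifs
        · exact a1 _ z w
        · exact b1 _ z w
      cont := by
        intro z
        have h5 : LipschitzWith (2 * ⟨C, hC⟩ : ℝ≥0) (fun t => Φ t z) :=
          LipschitzWith.of_dist_le_mul fun x y => by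
            rw [Real.dist_eq]; exact hΦ z x y
        exact h5.continuous.comp continuous_subtype_val
      start := by
        funext z
        simp [Φ, a3]
      finish := by
        funext z
        simp only [Φ]
        rw [if_neg (by norm_num)]
        norm_num
        exact b3 z }
  refine (iInf_le _ γ).trans ?_
  unfold LipCurve.length
  refine iSup_le fun z => ?_
  have h6 := evar_le (K := (2 * ⟨C, hC⟩ : ℝ≥0)) (φ := fun t => Φ t z) (fun x y => by
    refine (hΦ z x y).trans (le_of_eq ?_)
    rfl)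
  exact h6

end Pool.Agent.H261R3.LH
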