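import Pool.Agent.H261R3.LH.Stmts

set_option autoImplicit false

open scoped NNReal
open UpperHalfPlane

namespace Pool.Agent.H261R3.LH

theorem asm_coord (z : ℍ) : 0 ≤ z.im / 2 ^ (Int.log 2 z.im) - 1 ∧
    z.im / 2 ^ (Int.log 2 z.im) - 1 ≤ 1 := by
  have h0 : (0 : ℝ) < 2 ^ (Int.log 2 z.im) := by positivity
  have h1 : (2 : ℝ) ^ (Int.log 2 z.im) ≤ z.im := by
    have := Int.zpow_log_le_self (b := 2) (r := z.im) one_lt_two z.im_pos
    exact_mod_cast this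
  have h2 : z.im < (2 : ℝ) ^ (Int.log 2 z.im + 1) := by
    have := Int.lt_zpow_succ_log_self (R := ℝ) (b := 2) one_lt_two z.im
    exact_mod_cast this
  rw [zpow_add₀ two_ne_zero, zpow_one] at h2
  constructor
  · rw [sub_nonneg, le_div_iff₀ h0, one_mul]; exact h1
  · rw [sub_le_iff_le_add, div_le_iff₀ h0]; linarith

theorem asm_congr {S : Type} {G G' : ℤ → ℤ → ℝ → ℝ → S}
    (h : ∀ j k s h, 0 ≤ s → s ≤ 1 → 0 ≤ h → h ≤ 1 → G j k s h = G' j k s h) (z : ℍ) :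
    asm G z = asm G' z := by
  unfold asm
  exact h _ _ _ _ (Int.fract_nonneg _) (Int.fract_lt_one _).le (asm_coord z).1 (asm_coord z).2

theorem main_of (hA : TaskAsm) (hC : TaskCell) (hN : TaskNul) (hL : TaskLine) (hAB : TaskStageAB)
    (hSC : TaskStageC) (hD : TaskStageD) (hT : TaskTrans) : Main := by
  intro S _ _ _ hS p
  obtain ⟨C1, hC1, h1⟩ := hAB hL S hS p 1
  obtain ⟨C2, hC2, h2⟩ := hSC hN S hS p C1
  obtain ⟨C3, hC3, h3⟩ := hD S p C2 hC2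
  let C4 : ℝ := 2 * (2 * C1 + 2 * C2) + 2 * C3
  have hC4 : 0 ≤ C4 := by positivity
  have hb : ∀ a b : S, dist a b ≤ Metric.diam (Set.univ : Set S) := fun a b =>
    Metric.dist_le_diam_of_mem isCompact_univ.isBounded (Set.mem_univ _) (Set.mem_univ _)
  obtain ⟨C5, h5⟩ := hA S C4 _ hC4 hb
  refine ⟨max C4 (max C5 0), hC4.trans (le_max_left _ _), fun F hF => ?_⟩
  obtain ⟨g0, g0'⟩ := hC S F hF
  obtain ⟨G1, r1, g1, e1⟩ := h1 _ g0
  obtain ⟨G2, r2, g2, e2, e2'⟩ := h2 G1 g1 e1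
  have r3 := h3 G2 g2 e2 e2'
  have r4 := hT S _ _ (by positivity) hC3 _ _ _ (hT S _ _ hC1 hC2 _ _ _ r1 r2) r3
  obtain ⟨H, k1, k2, k3, k4⟩ := r4
  refine ⟨fun t z => asm (H t) z, fun t z w => ?_, fun z x y => ?_, fun z => ?_, fun z => ?_⟩
  · refine (h5 (H t) (k1 t) z w).trans ?_
    exact mul_le_mul_of_nonneg_right ((le_max_left _ _).trans (le_max_right _ _)) dist_nonneg
  · refine (k2 _ _ _ _ x y).trans ?_
    exact mul_le_mul_of_nonneg_right (le_max_left _ _) (abs_nonneg _)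
  · exact (asm_congr k3 z).trans (g0' z)
  · exact (asm_congr k4 z).trans rfl

end Pool.Agent.H261R3.LH
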