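import Mathlib

/-! Project LH (MP_e25190_gt): maps from the hyperbolic plane to simply connected compact Lipschitz
neighbourhood retracts are boundedly null-homotopic. Definitions and task statements. -/

set_option autoImplicit false

open scoped NNReal
open UpperHalfPlane

namespace Pool.Agent.H261R3.LH

section
variable {S : Type} [MetricSpace S]

/-- `C`-Lipschitz functions of a real variable. -/
def Lip1 (C : ℝ) (f : ℝ → S) : Prop := ∀ x y, dist (f x) (f y) ≤ C * |x - y|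

/-- `S` is a Lipschitz neighbourhood retract of a Euclidean space. -/
def IsLNR (S : Type) [MetricSpace S] : Prop :=
  ∃ (m : ℕ) (ι : S → EuclideanSpace ℝ (Fin m)) (r : EuclideanSpace ℝ (Fin m) → S) (K : ℝ≥0)
    (ρ : ℝ), 0 < ρ ∧ LipschitzWith K ι ∧
      LipschitzOnWith K r (Metric.thickening ρ (Set.range ι)) ∧ ∀ x, r (ι x) = x

/-- clip to the unit interval -/
noncomputable def clip (x : ℝ) : ℝ := max 0 (min 1 x)

/-- A family of maps on the cells `D j k = {2^j (k + s) + i 2^j (1 + h) : s h ∈ [0,1]}` of the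
upper half plane which is `C`-Lipschitz in each coordinate and fits together to a map on the
upper half plane. -/
structure Good (C : ℝ) (G : ℤ → ℤ → ℝ → ℝ → S) : Prop where
  ls : ∀ j k h, Lip1 C (fun s => G j k s h)
  lh : ∀ j k s, Lip1 C (fun h => G j k s h)
  lr : ∀ j k h, G j k 1 h = G j (k + 1) 0 h
  tl : ∀ j k s, 0 ≤ s → s ≤ 1 → G j (2 * k) s 1 = G (j + 1) k (s / 2) 0
  tr : ∀ j k s, 0 ≤ s → s ≤ 1 → G j (2 * k + 1) s 1 = G (j + 1) k ((1 + s) / 2) 0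

/-- The assembled map. -/
noncomputable def asm (G : ℤ → ℤ → ℝ → ℝ → S) (z : ℍ) : S :=
  G (Int.log 2 z.im) ⌊z.re / 2 ^ (Int.log 2 z.im)⌋ (Int.fract (z.re / 2 ^ (Int.log 2 z.im)))
    (z.im / 2 ^ (Int.log 2 z.im) - 1)

/-- A homotopy through good families, `C`-Lipschitz in time. -/
def Rel (C : ℝ) (G G' : ℤ → ℤ → ℝ → ℝ → S) : Prop :=
  ∃ H : ℝ → ℤ → ℤ → ℝ → ℝ → S, (∀ t, Good C (H t)) ∧
    (∀ j k s h, Lip1 C (fun t => H t j k s h)) ∧
    (∀ j k s h, 0 ≤ s → s ≤ 1 → 0 ≤ h → h ≤ 1 → H 0 j k s h = G j k s h) ∧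
    (∀ j k s h, 0 ≤ s → s ≤ 1 → 0 ≤ h → h ≤ 1 → H 1 j k s h = G' j k s h)

theorem clip_nonneg (x : ℝ) : 0 ≤ clip x := le_max_left _ _

/-- The point `2^j (k + s) + i 2^j (1 + clip h)`. -/
noncomputable def cellPt (j k : ℤ) (s h : ℝ) : ℍ :=
  ⟨⟨2 ^ j * (k + s), 2 ^ j * (1 + clip h)⟩, by
    have h1 := clip_nonneg h
    have h2 : (0 : ℝ) < 2 ^ j := by positivity
    show 0 < 2 ^ j * (1 + clip h)
    positivity⟩

end

/-- Task Retr: the 1-Lipschitz retraction of the hyperbolic plane to a closed ball. -/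
def TaskRetr : Prop := ∀ R : ℝ, 0 ≤ R → ∃ ρ : ℍ → ℍ, (∀ z, dist (ρ z) I ≤ R) ∧
  (∀ z, dist z I ≤ R → ρ z = z) ∧ ∀ z w, dist (ρ z) (ρ w) ≤ dist z w

/-- Task Asm: assembled maps are Lipschitz. -/
def TaskAsm : Prop := ∀ (S : Type) [MetricSpace S] (C Δ : ℝ), 0 ≤ C → (∀ a b : S, dist a b ≤ Δ) →
  ∃ C' : ℝ, ∀ G : ℤ → ℤ → ℝ → ℝ → S, Good C G →
    ∀ z w : ℍ, dist (asm G z) (asm G w) ≤ C' * dist z w

/-- Task Cell: the family of a Lipschitz map. -/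
def TaskCell : Prop := ∀ (S : Type) [MetricSpace S] (F : ℍ → S), (∀ z w, dist (F z) (F w) ≤ dist z w) →
  Good 1 (fun j k s h => F (cellPt j k s h)) ∧
    ∀ z, asm (fun j k s h => F (cellPt j k s h)) z = F z

/-- Task Path: uniformly Lipschitz paths to the base point. -/
def TaskPath : Prop := ∀ (S : Type) [MetricSpace S] [CompactSpace S] [PathConnectedSpace S],
  IsLNR S → ∀ p : S, ∃ C : ℝ, 0 ≤ C ∧ ∀ y, ∃ P : ℝ → S, Lip1 C P ∧ P 0 = y ∧ P 1 = p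

/-- Task NulOne: a Lipschitz loop is null-homotopic through a Lipschitz homotopy. -/
def TaskNulOne : Prop := ∀ (S : Type) [MetricSpace S] [CompactSpace S] [SimplyConnectedSpace S],
  IsLNR S → ∀ (p : S) (C : ℝ) (l : ℝ → S), Lip1 C l → l 0 = p → l 1 = p →
    ∃ (C' : ℝ) (K : ℝ → ℝ → S), (∀ t, Lip1 C' (fun h => K h t)) ∧ (∀ h, Lip1 C' (fun t => K h t)) ∧
      (∀ h, 0 ≤ h → h ≤ 1 → K h 0 = l h) ∧ (∀ h, K h 1 = p) ∧ ∀ t, K 0 t = p ∧ K 1 t = p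

/-- Task Nul: the same with a uniform constant. -/
def TaskNul : Prop := ∀ (S : Type) [MetricSpace S] [CompactSpace S] [SimplyConnectedSpace S],
  IsLNR S → ∀ (p : S) (C : ℝ), ∃ C' : ℝ, 0 ≤ C' ∧ ∀ (l : ℝ → S), Lip1 C l → l 0 = p → l 1 = p →
    ∃ (K : ℝ → ℝ → S), (∀ t, Lip1 C' (fun h => K h t)) ∧ (∀ h, Lip1 C' (fun t => K h t)) ∧
      (∀ h, 0 ≤ h → h ≤ 1 → K h 0 = l h) ∧ (∀ h, K h 1 = p) ∧ ∀ t, K 0 t = p ∧ K 1 t = p

/-- Task NulUnif. -/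
def TaskNulUnif : Prop := TaskNulOne → TaskNul

/-- Task Line: null-homotopies of Lipschitz lines. -/
def TaskLine : Prop := ∀ (S : Type) [MetricSpace S] [CompactSpace S] [SimplyConnectedSpace S],
  IsLNR S → ∀ (p : S) (C : ℝ), ∃ C' : ℝ, 0 ≤ C' ∧ ∀ (l : ℝ → S), Lip1 C l →
    ∃ (g : ℝ → ℝ → S), (∀ t, Lip1 C' (fun v => g v t)) ∧ (∀ v, Lip1 C' (fun t => g v t)) ∧
      (∀ v, g v 0 = l v) ∧ (∀ v, g v 1 = p)

/-- Task LineOf. -/
def TaskLineOf : Prop := TaskPath → TaskNul → TaskLine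

/-- Task StageAB: make a family constant on the horizontal lines. -/
def TaskStageAB : Prop := TaskLine → ∀ (S : Type) [MetricSpace S] [CompactSpace S]
  [SimplyConnectedSpace S], IsLNR S → ∀ (p : S) (C : ℝ), ∃ C' : ℝ, 0 ≤ C' ∧
    ∀ G : ℤ → ℤ → ℝ → ℝ → S, Good C G → ∃ G', Rel C' G G' ∧ Good C' G' ∧
      ∀ j k s, G' j k s 0 = p ∧ G' j k s 1 = p

/-- Task StageC: make a family constant on the vertical edges. -/
def TaskStageC : Prop := TaskNul → ∀ (S : Type) [MetricSpace S] [CompactSpace S]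
  [SimplyConnectedSpace S], IsLNR S → ∀ (p : S) (C : ℝ), ∃ C' : ℝ, 0 ≤ C' ∧
    ∀ G : ℤ → ℤ → ℝ → ℝ → S, Good C G → (∀ j k s, G j k s 0 = p ∧ G j k s 1 = p) →
      ∃ G', Rel C' G G' ∧ Good C' G' ∧ (∀ j k s, G' j k s 0 = p ∧ G' j k s 1 = p) ∧
        ∀ j k h, G' j k 0 h = p ∧ G' j k 1 h = p

/-- Task StageD: push the contents of the cells downwards. -/
def TaskStageD : Prop := ∀ (S : Type) [MetricSpace S] (p : S) (C : ℝ), 0 ≤ C → ∃ C' : ℝ, 0 ≤ C' ∧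
    ∀ G : ℤ → ℤ → ℝ → ℝ → S, Good C G → (∀ j k s, G j k s 0 = p ∧ G j k s 1 = p) →
      (∀ j k h, G j k 0 h = p ∧ G j k 1 h = p) → Rel C' G (fun _ _ _ _ => p)

/-- Task Trans. -/
def TaskTrans : Prop := ∀ (S : Type) [MetricSpace S] (C C' : ℝ), 0 ≤ C → 0 ≤ C' →
  ∀ (G G' G'' : ℤ → ℤ → ℝ → ℝ → S), Rel C G G' → Rel C' G' G'' → Rel (2 * C + 2 * C') G G''

/-- The main statement: on the hyperbolic plane, all 1-Lipschitz maps are homotopic to a constant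
through `C`-Lipschitz maps, with `C`-Lipschitz tracks. -/
def Main : Prop := ∀ (S : Type) [MetricSpace S] [CompactSpace S] [SimplyConnectedSpace S],
  IsLNR S → ∀ p : S, ∃ C : ℝ, 0 ≤ C ∧ ∀ F : ℍ → S, (∀ z w, dist (F z) (F w) ≤ dist z w) →
    ∃ H : ℝ → ℍ → S, (∀ t z w, dist (H t z) (H t w) ≤ C * dist z w) ∧
      (∀ z, Lip1 C (fun t => H t z)) ∧ (∀ z, H 0 z = F z) ∧ ∀ z, H 1 z = p

end Pool.Agent.H261R3.LH
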