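import Pool.Agent.H261R3.LH.Fin
import Pool.Agent.H107R3.LH.Asm
import Pool.Agent.H146R3.LH.StageC
import Pool.Agent.H26R3.LH.StageD
import Pool.Agent.H275R3.LH.NulOne
import Pool.Agent.H380R3.LH.Retr
import Pool.Agent.H397R3.LH.Cell
import Pool.Agent.H531R3.LH.LineOf
import Pool.Agent.H622R3.LH.Trans
import Pool.Agent.H744R3.LH.StageAB
import Pool.Agent.H853R3.LH.Path
import Pool.Agent.H94R3.LH.NulUnif

set_option autoImplicit false

open scoped NNReal ENNReal

namespace Pool.Agent.H261R3.LH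

open Pool.Agent.H261R3.LD (diamLip)

theorem taskNul_all : TaskNul := taskNulUnif Pool.Agent.H275R3.LH.taskNulOne

theorem taskLine_all : TaskLine :=
  Pool.Agent.H531R3.LH.taskLineOf Pool.Agent.H853R3.LH.Path.taskPath taskNul_all

theorem main_all : Main :=
  main_of taskAsm taskCell taskNul_all taskLine_all Pool.Agent.H744R3.LH.taskStageAB
    Pool.Agent.H146R3.LH.taskStageC Pool.Agent.H26R3.LH.taskStageD taskTrans

theorem bounded_n2 (S : Type) [MetricSpace S] [CompactSpace S]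
    [SimplyConnectedSpace S] (hS : IsLNR S) :
    ∃ c₀ D : ℝ≥0, 1 ≤ c₀ ∧ ∀ c : ℝ≥0, c₀ ≤ c → ∀ R : ℝ, 0 < R →
      diamLip (HBall R) S c 1 ≤ D :=
  final main_all Pool.Agent.H380R3.LH.taskRetr S hS

end Pool.Agent.H261R3.LH
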